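import Pool.Agent.K3h50.MW.Main
import Pool.Agent.TH585.SV.Lin2

/-!
Nonvanishing and bigness for pairs with many powerful members of a linear system.
-/

set_option autoImplicit false

open FF Module Pool.Agent.W603.LV Pool.Agent.W602.GT Pool.Agent.W602.Cov Pool.Agent.W602.Cov.G
open Pool.Agent.W168.CG.PGR Pool.Agent.TH152.AC Pool.Agent.TH152.HY Pool.Agent.TH585.SV
open Pool.Agent.TH766.MC

namespace Pool.Agent.K3h50.MW

variable {d k n q G p : ℕ} {K : Type} [Field K] [Algebra ℂ K]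

/-- the words of all groups -/
theorem exists_data {ℓ : Fin q → Form n} (hℓ : ∀ i, ℓ i ≠ 0)
    {x : Fin (n + 1) → K} (hli : LinearIndependent ℂ x) (hdk : d + k = n)
    (σ : Fin (d + 1) → Fin (n + 1)) (hσ : x (σ 0) ≠ 0)
    (hbas : IsTranscendenceBasis ℂ (fun j : Fin d => x (σ j.succ) / x (σ 0)))
    (γ : Fin G → Fin p → Fin q)
    (hγ : ∀ s, Submodule.span ℂ (Set.range fun j => ℓ (γ s j)) = ⊤) :
    ∃ (e : Fin (d + 1) ⊕ Fin k ≃ Fin (n + 1)) (S : Fin G → Fin k → List (Letter d p))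
      (D : Fin d → Derivation ℂ K K), (∀ s a, (S s a).length ≤ k + 1) ∧
      (∀ s, 2 * wt (S s) ≤ (k + 1) * (k + 2)) ∧
      ∀ (b : Fin q → ℕ) (M t : ℕ),
        IsPluri ((∑ s, wt (S s)) * (M * t)) (fm ℓ x γ e S b M t) ∧ fm ℓ x γ e S b M t D ≠ 0 := by
  classical
  have hlx : ∀ i, lf (ℓ i) x ≠ 0 := fun i => lf_ne_of_li hli (hℓ i)
  obtain ⟨D, hD⟩ := (bwb d K).2.2 (fun j => x (σ j)) hσ hbas
  have hDt : (Matrix.of fun i j : Fin d => D i (x (σ j.succ) / x (σ 0))).det ≠ 0 := by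
    have h1 := Pool.Agent.W930.CG.bw_eq bwa D (fun j => x (σ j)) hσ
    rw [h1] at hD
    exact right_ne_zero_of_mul hD
  obtain ⟨hall, hconst⟩ := consts_basis hbas hDt
  let e : Fin (d + 1) ⊕ Fin k ≃ Fin (n + 1) :=
    finSumFinEquiv.trans (finCongr (by omega))
  have hgr : ∀ s, ∃ I0 : Fin (d + 1) → Fin p, bw D (fun j => gr ℓ x (γ s) (I0 j)) ≠ 0 := by
    intro s
    exact exists_index (ℓ := fun j => ℓ (γ s j)) (hγ s) D σ hD
  choose I0 hI0 using hgr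
  have hexS : ∀ s, ∃ S : Fin k → List (Letter d p), MinW e D (gr ℓ x (γ s)) x S := fun s =>
    exists_minW e hconst (g := gr ℓ x (γ s)) (fun j => hlx _) (hI0 s) hli (blk_li hD)
  choose S hS using hexS
  refine ⟨e, S, D, fun s a => Pool.Agent.K3h50.MM.length_le e hconst (g := gr ℓ x (γ s)) (fun j => hlx _) (hI0 s) hli
    (blk_li hD) (hS s) a, fun s => (hS s).le, fun b M t => ⟨?_, ?_⟩⟩
  · intro A E
    obtain ⟨M1, rfl⟩ := hall E
    have e1 : (fun i => ∑ j, A i j • (fun i => ∑ j, M1 i j • D j) j) =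
        fun i => ∑ j, (A * M1) i j • D j := by
      funext i
      simp only [Finset.smul_sum, smul_smul, Matrix.mul_apply, Finset.sum_smul]
      rw [Finset.sum_comm]
    have h1 : ∀ s, pw e (fun i => ∑ j, A i j • (fun i => ∑ j, M1 i j • D j) j)
        (gr ℓ x (γ s)) x (S s) = A.det ^ wt (S s) *
          pw e (fun i => ∑ j, M1 i j • D j) (gr ℓ x (γ s)) x (S s) := by
      intro s
      rw [e1, pw_change (hS s), pw_change (hS s), Matrix.det_mul, mul_pow, mul_assoc]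
      rfl
    unfold fm
    rw [Finset.prod_congr rfl fun s _ => h1 s, Finset.prod_mul_distrib, Finset.prod_pow_eq_pow_sum,
      mul_pow, ← pow_mul, mul_div_assoc]
  · unfold fm
    refine div_ne_zero (pow_ne_zero _ (Finset.prod_ne_zero_iff.2 fun s _ => ?_))
      (Finset.prod_ne_zero_iff.2 fun i _ => pow_ne_zero _ (hlx i))
    rw [← phi_eq_pw]
    exact (hS s).ne

/-- rational weights -/
theorem exists_den (b : Fin q → ℚ) (hb : ∀ i, 0 ≤ b i) :
    ∃ (M : ℕ) (c : Fin q → ℕ), 1 ≤ M ∧ ∀ i, b i = (c i : ℚ) / M := by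
  classical
  refine ⟨∏ i, (b i).den, fun i => (b i).num.toNat * ∏ j ∈ Finset.univ.erase i, (b j).den,
    Nat.one_le_iff_ne_zero.2 (Finset.prod_ne_zero_iff.2 fun i _ => (b i).den_ne_zero), fun i => ?_⟩
  have h1 : ((b i).num.toNat : ℚ) = (b i).num := by
    have := Int.toNat_of_nonneg (Rat.num_nonneg.2 (hb i))
    exact_mod_cast this
  have h2 : (∏ j, ((b j).den : ℚ)) = (b i).den * ∏ j ∈ Finset.univ.erase i, ((b j).den : ℚ) :=
    (Finset.mul_prod_erase _ _ (Finset.mem_univ i)).symm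
  have h3 : (∏ j ∈ Finset.univ.erase i, ((b j).den : ℚ)) ≠ 0 :=
    Finset.prod_ne_zero_iff.2 fun j _ => by exact_mod_cast (b j).den_ne_zero
  push_cast
  rw [h1, h2, mul_div_mul_right _ _ h3, Rat.num_div_den]

/-- coordinates which are members -/
theorem exists_coords {V : Submodule ℂ K} (hV : Module.finrank ℂ V = n + 1) {φ : Fin q → K}
    (hφ : Submodule.span ℂ (Set.range φ) = V) :
    ∃ (τ : Fin (n + 1) → Fin q) (ℓ : Fin q → Form n), LinearIndependent ℂ (fun a => φ (τ a)) ∧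
      (∀ i, lf (ℓ i) (fun a => φ (τ a)) = φ i) ∧
      (∀ ψ : Form n, lf ψ (fun a => φ (τ a)) ∈ V) ∧
      ∀ f ∈ V, ∃ ψ : Form n, lf ψ (fun a => φ (τ a)) = f := by
  classical
  have hfr : finrank ℂ (Submodule.span ℂ (Set.range φ)) = n + 1 := by rw [hφ, hV]
  have : FiniteDimensional ℂ (Submodule.span ℂ (Set.range φ)) :=
    FiniteDimensional.span_of_finite ℂ (Set.finite_range φ)
  obtain ⟨f, hf1, hf2, hf3⟩ := Submodule.exists_fun_fin_finrank_span_eq ℂ (Set.range φ)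
  choose g hg using hf1
  obtain ⟨τ, hτ⟩ : ∃ τ : Fin (n + 1) → Fin q, ∀ a, φ (τ a) = f (Fin.cast hfr.symm a) :=
    ⟨fun a => g (Fin.cast hfr.symm a), fun a => hg _⟩
  have hτ' : (fun a => φ (τ a)) = f ∘ (Fin.cast hfr.symm) := funext hτ
  have hli : LinearIndependent ℂ (fun a => φ (τ a)) := by
    rw [hτ']
    exact hf3.comp _ (Fin.cast_injective _)
  have hspan : Submodule.span ℂ (Set.range fun a => φ (τ a)) = V := by
    rw [hτ', Set.range_comp]
    have h1 : Set.range (Fin.cast hfr.symm) = Set.univ := by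
      rw [Set.range_eq_univ]
      exact (finCongr hfr.symm).surjective
    rw [h1, Set.image_univ, hf2, hφ]
  have hfm : ∀ f ∈ V, ∃ ψ : Form n, lf ψ (fun a => φ (τ a)) = f := by
    intro f hf
    rw [← hspan, ← Set.image_univ] at hf
    obtain ⟨ψ, h1, -⟩ := exists_lift Set.univ hf
    exact ⟨ψ, h1⟩
  have hφV : ∀ i, φ i ∈ V := by
    intro i
    rw [← hφ]
    exact Submodule.subset_span ⟨i, rfl⟩
  choose ℓ hℓ using fun i => hfm (φ i) (hφV i)
  refine ⟨τ, ℓ, hli, hℓ, fun ψ => ?_, hfm⟩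
  rw [lf_eq_smul, ← hspan]
  exact Submodule.sum_mem _ fun j _ => Submodule.smul_mem _ _ (Submodule.subset_span ⟨j, rfl⟩)

open Classical in
/-- the rank condition for the weights -/
def WtsV (V : Submodule ℂ K) (φ : Fin q → K) (β : Fin q → ℚ) : Prop :=
  (∀ i, 0 ≤ β i) ∧ ∀ F : Submodule ℂ K, F < V →
    ∑ i ∈ Finset.univ.filter (fun i => φ i ∈ F), β i ≤ finrank ℂ F

open Classical in
/-- the groups span, and at most `c dim F` of the groups meet `F` -/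
def SprV (V : Submodule ℂ K) (φ : Fin q → K) (A : Fin G → Finset (Fin q)) (c : ℝ) : Prop :=
  (∀ s, Submodule.span ℂ (φ '' (A s : Set (Fin q))) = V) ∧
  ∀ F : Submodule ℂ K, F < V →
    ((Finset.univ.filter (fun s => ∃ i ∈ A s, φ i ∈ F)).card : ℝ) ≤ c * G * finrank ℂ F

/-- transport of subspaces -/
theorem map_lt {V : Submodule ℂ K} {x : Fin (n + 1) → K} (hli : LinearIndependent ℂ x)
    (hmem : ∀ ψ : Form n, lf ψ x ∈ V) {F : Submodule ℂ (Form n)} (hF : F ≠ ⊤) :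
    F.map (lfm x) < V ∧ finrank ℂ (F.map (lfm x)) = finrank ℂ F ∧
      ∀ ψ : Form n, ψ ∈ F ↔ lf ψ x ∈ F.map (lfm x) := by
  have hinj : Function.Injective (lfm x) := by
    rw [injective_iff_map_eq_zero]
    intro ψ hψ
    by_contra h0
    exact lf_ne_of_li hli h0 hψ
  have hiff : ∀ ψ : Form n, ψ ∈ F ↔ lf ψ x ∈ F.map (lfm x) := by
    intro ψ
    constructor
    · intro h
      exact ⟨ψ, h, rfl⟩
    · rintro ⟨ψ', h, h'⟩
      have : ψ' = ψ := hinj h'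
      rwa [← this]
  refine ⟨lt_of_le_of_ne ?_ ?_, ?_, hiff⟩
  · rintro _ ⟨ψ, -, rfl⟩
    exact hmem ψ
  · intro h
    apply hF
    rw [eq_top_iff]
    intro ψ _
    rw [hiff, h]
    exact hmem ψ
  · exact (Submodule.equivMapOfInjective (lfm x) hinj F).finrank_eq.symm

/-- the weights of the forms -/
theorem wts_of {V : Submodule ℂ K} {φ : Fin q → K} {x : Fin (n + 1) → K} {ℓ : Fin q → Form n}
    (hli : LinearIndependent ℂ x) (hℓ : ∀ i, lf (ℓ i) x = φ i)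
    (hmem : ∀ ψ : Form n, lf ψ x ∈ V) {β : Fin q → ℚ} (hβ : WtsV V φ β) : Wts ℓ (fun i => (β i : ℝ)) := by
  classical
  refine ⟨fun i => Rat.cast_nonneg.2 (hβ.1 i), fun F hF => ?_⟩
  obtain ⟨h1, h2, h3⟩ := map_lt hli hmem hF
  have h4 := hβ.2 _ h1
  rw [h2] at h4
  have e : (Finset.univ.filter fun i => ℓ i ∈ F) =
      Finset.univ.filter (fun i => φ i ∈ F.map (lfm x)) := by
    ext i
    rw [Finset.mem_filter, Finset.mem_filter, h3, hℓ]
  have h5 : ((∑ i ∈ Finset.univ.filter (fun i => φ i ∈ F.map (lfm x)), β i : ℚ) : ℝ) ≤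
      ((finrank ℂ F : ℚ) : ℝ) := by
    refine Rat.cast_le.2 ?_
    convert h4
  push_cast at h5
  refine le_trans (le_of_eq ?_) h5
  rw [← e]

/-- the groups of forms -/
theorem spr_of {V : Submodule ℂ K} {φ : Fin q → K} {x : Fin (n + 1) → K} {ℓ : Fin q → Form n}
    (hV : finrank ℂ V = n + 1)
    (hli : LinearIndependent ℂ x) (hℓ : ∀ i, lf (ℓ i) x = φ i)
    (hmem : ∀ ψ : Form n, lf ψ x ∈ V)
    {A : Fin G → Finset (Fin q)} {c : ℝ} (hA : SprV V φ A c) :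
    ∃ γ : Fin G → Fin q → Fin q, Spr ℓ γ c ∧
      ∀ s, Submodule.span ℂ (Set.range fun j => ℓ (γ s j)) = ⊤ := by
  classical
  have hne : ∀ s, ∃ i, i ∈ A s := by
    intro s
    by_contra hcon
    push Not at hcon
    have h1 := hA.1 s
    have h2 : A s = ∅ := Finset.eq_empty_of_forall_notMem hcon
    rw [h2, Finset.coe_empty, Set.image_empty, Submodule.span_empty] at h1
    rw [← h1, finrank_bot] at hV
    omega
  choose i0 hi0 using hne
  obtain ⟨γ, hγ⟩ : ∃ γ : Fin G → Fin q → Fin q, ∀ s j, γ s j = if j ∈ A s then j else i0 s :=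
    ⟨_, fun _ _ => rfl⟩
  have hγA : ∀ s j, γ s j ∈ A s := by
    intro s j
    rw [hγ]
    split_ifs with h
    · exact h
    · exact hi0 s
  have hAγ : ∀ s, ∀ i ∈ A s, γ s i = i := by
    intro s i hi
    rw [hγ, if_pos hi]
  refine ⟨γ, fun F hF => ?_, fun s => ?_⟩
  · obtain ⟨h1, h2, h3⟩ := map_lt hli hmem hF
    have h4 := hA.2 _ h1
    rw [h2] at h4
    refine le_trans ?_ h4
    have h5 : (Finset.univ.filter fun s => ∃ j, ℓ (γ s j) ∈ F).card ≤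
        (Finset.univ.filter (fun s => ∃ i ∈ A s, φ i ∈ F.map (lfm x))).card := by
      apply Finset.card_le_card
      intro s hs
      rw [Finset.mem_filter] at hs ⊢
      obtain ⟨-, j, hj⟩ := hs
      refine ⟨Finset.mem_univ _, γ s j, hγA s j, ?_⟩
      rw [← hℓ, ← h3]
      exact hj
    have h6 : ((Finset.univ.filter fun s => ∃ j, ℓ (γ s j) ∈ F).card : ℝ) ≤
        ((Finset.univ.filter (fun s => ∃ i ∈ A s, φ i ∈ F.map (lfm x))).card : ℝ) := by
      exact_mod_cast h5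
    convert h6
  · by_contra hcon
    obtain ⟨h1, h2, h3⟩ := map_lt hli hmem hcon
    refine absurd ?_ (not_le_of_gt h1)
    rw [← hA.1 s, Submodule.span_le]
    rintro _ ⟨i, hi, rfl⟩
    rw [← hℓ i]
    exact (h3 (ℓ i)).1 (Submodule.subset_span ⟨i, by simp only [hAγ s i hi]⟩)

/-- the bound for the multiplicities -/
noncomputable def bd (d n : ℕ) (c : ℝ) : ℝ :=
  ((n : ℝ) - d + 1) * (1 + c * ((n : ℝ) - d) / 2)

/-- The multiplicities of the members. -/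
def Pow (d : ℕ) {q : ℕ} {K : Type} [Field K] [Algebra ℂ K] (V : Submodule ℂ K) (φ : Fin q → K)
    (y : Fin q → ℚ) (X : Set (Place ℂ K)) (δ : Place ℂ K → ℝ) (s : ℝ) : Prop :=
  ∀ P ∈ X, Divisorial d P → ∀ a : ℤ, (∀ f ∈ V, f = 0 ∨ a ≤ P.ord f) →
    (∃ f ∈ V, f ≠ 0 ∧ P.ord f = a) → ∀ i, P.ord (φ i) ≠ a →
      s * (1 - δ P) ≤ (1 - y i) * ((P.ord (φ i) - a : ℤ) : ℝ)

/-- **The theorem in one form**: `κ0` is `0` for nonvanishing. -/
theorem core (hdk : d + k = n) (hG1 : 1 ≤ G) {β y : Fin q → ℚ}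
    {M : ℕ} {m : Fin q → ℕ} (hM : 1 ≤ M) (hm : ∀ i, β i * y i = (m i : ℚ) / M)
    (hy0 : ∀ i, 0 ≤ y i) (hb : ∑ i, β i * y i = n + 1)
    {c s κ0 : ℝ} (hc : 0 ≤ c) (hs : bd d n c ≤ s) (hκ0 : 0 ≤ κ0) (hκ1 : ∀ i, κ0 ≤ 1 - (y i : ℝ))
    (t0 : ℕ)
    (htr : Algebra.trdeg ℂ K = d) {V : Submodule ℂ K} (hV : Module.finrank ℂ V = n + 1)
    (halg : Algebra.IsAlgebraic
      (IntermediateField.adjoin ℂ {y : K | ∃ f ∈ V, ∃ g ∈ V, y = f / g}) K)
    {φ : Fin q → K} (hφ0 : ∀ i, φ i ≠ 0) (hφV : ∀ i, φ i ∈ V) (hβ : WtsV V φ β)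
    {A : Fin G → Finset (Fin q)} (hA : SprV V φ A c)
    {X : Set (Place ℂ K)} {δ : Place ℂ K → ℝ} (hδ : ∀ P ∈ X, 0 ≤ δ P)
    (h : Pow d V φ y X δ s) :
    ∃ (ω : (Fin d → Derivation ℂ K K) → K) (D : Fin d → Derivation ℂ K K) (u : Fin d → K),
      ω D ≠ 0 ∧ AlgebraicIndependent ℂ u ∧
      IsPluri (M * (t0 * (G * ((k + 1) * (k + 2))).factorial)) ω ∧
      ∀ P ∈ X, Divisorial d P → ∃ l : ℕ, (∀ j, Ge P (-(l : ℤ)) (u j)) ∧
        ∀ E : Fin d → Derivation ℂ K K, (∀ i, DerReg P (E i)) → ∃ z : ℤ, Ge P z (ω E) ∧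
          (t0 : ℝ) * ((1 - bd d n c / s) * κ0 * l) -
            ((M * (t0 * (G * ((k + 1) * (k + 2))).factorial) : ℕ) : ℝ) * δ P ≤ z := by
  classical
  unfold bd at *
  have hspanV : Submodule.span ℂ (Set.range φ) = V := by
    apply le_antisymm
    · rw [Submodule.span_le]
      rintro _ ⟨i, rfl⟩
      exact hφV i
    · rw [← hA.1 ⟨0, hG1⟩]
      exact Submodule.span_mono (Set.image_subset_range _ _)
  obtain ⟨τ, ℓ, hli, hℓ, hmem, hfm⟩ := exists_coords hV hspanV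
  have hℓ0 : ∀ i, ℓ i ≠ 0 := by
    intro i h0
    apply hφ0 i
    rw [← hℓ i, h0, lf_zero]
  obtain ⟨x, hx⟩ : ∃ x : Fin (n + 1) → K, x = fun a => φ (τ a) := ⟨_, rfl⟩
  rw [← hx] at hli hℓ hmem hfm
  have hβℓ := wts_of hli hℓ hmem hβ
  obtain ⟨γ, hγ1, hγ2⟩ := spr_of hV hli hℓ hmem hA
  have hspan : Submodule.span ℂ (Set.range ℓ) = ⊤ := by
    rw [eq_top_iff, ← hγ2 ⟨0, hG1⟩]
    apply Submodule.span_mono
    rintro _ ⟨j, rfl⟩
    exact ⟨_, rfl⟩
  obtain ⟨σ, hσ, hbas⟩ := exists_sigma hfm (hli.ne_zero 0) htr halg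
  obtain ⟨e, S, D, hlen, hW, hform⟩ := exists_data hℓ0 hli hdk σ hσ hbas γ hγ2
  have hlx : ∀ i, lf (ℓ i) x ≠ 0 := fun i => lf_ne_of_li hli (hℓ0 i)
  obtain ⟨W, hWd⟩ : ∃ W, W = ∑ s, wt (S s) := ⟨_, rfl⟩
  have hW1 : 1 ≤ W := by
    rw [hWd]
    have h1 : ∑ _s : Fin G, 1 ≤ ∑ s, wt (S s) := Finset.sum_le_sum fun s _ => by
      unfold wt
      omega
    rw [Finset.sum_const, Finset.card_univ, Fintype.card_fin, smul_eq_mul, mul_one] at h1
    omega
  have hWQ : W ≤ G * ((k + 1) * (k + 2)) := by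
    rw [hWd]
    have h1 : ∑ s, wt (S s) ≤ ∑ _s : Fin G, (k + 1) * (k + 2) := Finset.sum_le_sum fun s _ => by
      have := hW s
      omega
    rwa [Finset.sum_const, Finset.card_univ, Fintype.card_fin, smul_eq_mul] at h1
  obtain ⟨Q, hQ⟩ : ∃ Q, Q = (G * ((k + 1) * (k + 2))).factorial := ⟨_, rfl⟩
  obtain ⟨r, hr⟩ : ∃ r, Q = W * r := by
    rw [hQ]
    exact Nat.dvd_factorial hW1 hWQ
  have hQ0 : 0 < Q := by
    rw [hQ]
    exact Nat.factorial_pos _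
  have hr1 : 1 ≤ r := by
    rcases Nat.eq_zero_or_pos r with h0 | h0
    · rw [h0, mul_zero] at hr
      omega
    · exact h0
  rw [← hQ]
  obtain ⟨hpl, hne⟩ := hform m M (t0 * r)
  rw [← hWd] at hpl
  have hdeg : W * (M * (t0 * r)) = M * (t0 * Q) := by
    rw [hr]
    ring
  rw [hdeg] at hpl
  have hM' : (0 : ℝ) < M := by exact_mod_cast hM
  have hG' : (0 : ℝ) < G := by exact_mod_cast hG1
  have hcs : ∑ i, m i = (n + 1) * M := by
    have h1 : ∑ i, (m i : ℚ) / M = n + 1 := by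
      rw [← hb]
      exact Finset.sum_congr rfl fun i _ => (hm i).symm
    have hMQ : (M : ℚ) ≠ 0 := by
      have : M ≠ 0 := by omega
      exact_mod_cast this
    rw [← Finset.sum_div, div_eq_iff hMQ] at h1
    exact_mod_cast h1
  have hcR : ∀ i, (m i : ℝ) = M * ((β i : ℝ) * y i) := by
    intro i
    have h1 : (((β i * y i : ℚ)) : ℝ) = (m i : ℝ) / M := by
      rw [hm i]
      push_cast
      rfl
    push_cast at h1
    rw [h1]
    field_simp
  have hkr : (n : ℝ) - d = k := by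
    rw [← hdk]
    push_cast
    ring
  rw [hkr] at hs ⊢
  obtain ⟨B, hB⟩ : ∃ B : ℝ, B = ((k : ℝ) + 1) * (1 + c * k / 2) := ⟨_, rfl⟩
  rw [← hB] at hs ⊢
  have hBeq : ((k : ℝ) + 1) * (2 + c * k) = 2 * B := by
    rw [hB]
    field_simp
  have hBpos : 0 < B := by
    rw [hB]
    positivity
  have hspos : 0 < s := hBpos.trans_le hs
  obtain ⟨θ, hθ⟩ : ∃ θ : ℝ, θ = B / s := ⟨_, rfl⟩
  have hθ0 : 0 ≤ θ := by rw [hθ]; positivity
  have hθ1 : θ ≤ 1 := by rw [hθ, div_le_one hspos]; exact hs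
  rw [← hθ]
  have hq0 : 0 < q := by
    rcases Nat.eq_zero_or_pos q with h0 | h0
    · exfalso
      exact absurd (γ ⟨0, hG1⟩ (τ 0)).2 (by have := (τ 0).2; omega)
    · exact h0
  have hy0' : ∀ i, (0 : ℝ) ≤ y i := fun i => by exact_mod_cast hy0 i
  have hκ01 : κ0 ≤ 1 := by
    have h1 := hκ1 ⟨0, hq0⟩
    have h2 := hy0' ⟨0, hq0⟩
    linarith
  refine ⟨fm ℓ x γ e S m M (t0 * r), D, fun j => x (σ j.succ) / x (σ 0), hne, hbas.1, hpl, ?_⟩
  intro P hPX hPd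
  -- the orders
  obtain ⟨i1, -, hmin⟩ := Finset.exists_min_image Finset.univ (fun i => P.ord (lf (ℓ i) x))
    ⟨⟨0, hq0⟩, Finset.mem_univ _⟩
  obtain ⟨a, ha⟩ : ∃ a, a = P.ord (lf (ℓ i1) x) := ⟨_, rfl⟩
  obtain ⟨v, hv⟩ : ∃ v : Fin q → ℕ, ∀ i, P.ord (lf (ℓ i) x) = a + v i := by
    refine ⟨fun i => (P.ord (lf (ℓ i) x) - a).toNat, fun i => ?_⟩
    have h3 := hmin i (Finset.mem_univ i)
    rw [Int.toNat_of_nonneg (by rw [ha]; linarith)]
    ring
  have hge : ∀ ψ : Form n, lf ψ x = 0 ∨ a ≤ P.ord (lf ψ x) := by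
    intro ψ
    refine ge_span P a (Set.range ℓ) x ?_ ψ (by rw [hspan]; trivial)
    rintro _ ⟨i, rfl⟩
    right
    rw [hv i]
    have : (0 : ℤ) ≤ v i := by positivity
    linarith
  have hvs : Submodule.span ℂ (ℓ '' {i | v i ≠ 0}) ≠ ⊤ := by
    intro htop
    have h3 := ge_span P (a + 1) (ℓ '' {i | v i ≠ 0}) x (by
      rintro _ ⟨i, hi, rfl⟩
      right
      rw [hv i]
      have hi' : v i ≠ 0 := hi
      omega) (ℓ i1) (by rw [htop]; trivial)
    rcases h3 with h3 | h3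
    · exact hlx i1 h3
    · omega
  have hcond : ∀ i, v i ≠ 0 → s * (1 - δ P) ≤ (1 - (y i : ℝ)) * v i := by
    intro i hi
    have h1 := h P hPX hPd a (fun f hf => by
      obtain ⟨ψ, rfl⟩ := hfm f hf
      exact hge ψ) ⟨lf (ℓ i1) x, hmem _, hlx i1, ha.symm⟩ i (by
      rw [← hℓ i, hv i]
      omega)
    rw [← hℓ i, hv i] at h1
    have e1 : ((a + (v i : ℤ) - a : ℤ) : ℝ) = v i := by
      push_cast
      ring
    rwa [e1] at h1
  obtain ⟨κ, hκ⟩ : ∃ κ : ℝ, κ = (1 - θ) * κ0 := ⟨_, rfl⟩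
  have hκnn : 0 ≤ κ := by
    rw [hκ]
    exact mul_nonneg (sub_nonneg.2 hθ1) hκ0
  have hκle : κ ≤ 1 := by
    rw [hκ]
    calc (1 - θ) * κ0 ≤ 1 * 1 := by
          apply mul_le_mul _ hκ01 hκ0 zero_le_one
          linarith
      _ = 1 := one_mul 1
  have hcond2 : ∀ i, v i ≠ 0 → (y i : ℝ) * v i + κ * v i + max 0 (B * (1 - δ P)) ≤ v i := by
    intro i hi
    have h1 := hcond i hi
    have h2 := hκ1 i
    obtain ⟨w, hw⟩ : ∃ w : ℝ, w = 1 - (y i : ℝ) := ⟨_, rfl⟩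
    rw [← hw] at h1 h2
    have hw0 : 0 ≤ w := hκ0.trans h2
    have hvi : (0 : ℝ) ≤ v i := by positivity
    have h4 : max 0 (B * (1 - δ P)) ≤ θ * (w * v i) := by
      apply max_le (by positivity)
      have h5 : B * (1 - δ P) = θ * (s * (1 - δ P)) := by
        rw [hθ]
        field_simp
      rw [h5]
      exact mul_le_mul_of_nonneg_left h1 hθ0
    have h6 : κ * v i ≤ (1 - θ) * (w * v i) := by
      rw [hκ, mul_assoc]
      exact mul_le_mul_of_nonneg_left (mul_le_mul_of_nonneg_right h2 hvi) (sub_nonneg.2 hθ1)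
    have h7 : (y i : ℝ) * v i = v i - w * v i := by
      rw [hw]
      ring
    linarith
  -- the poles of the ratios
  have hτ : ∀ j, x j = lf (ℓ (τ j)) x := by
    intro j
    rw [hℓ, hx]
  refine ⟨v (τ (σ 0)), fun j => ?_, fun E hE => ?_⟩
  · right
    change -((v (τ (σ 0)) : ℕ) : ℤ) ≤ P.ord (x (σ j.succ) / x (σ 0))
    rw [hτ (σ j.succ), hτ (σ 0), P.ord_div (hlx _) (hlx _), hv, hv]
    have : (0 : ℤ) ≤ v (τ (σ j.succ)) := by positivity
    linarith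
  · obtain ⟨z, hz1, hz2⟩ := fm_ord hlx hspan hℓ0 hG1 γ hc hγ1 e S hlen hW hM hcs hβℓ hy0' hcR
      (t0 * r) hE hv hvs (hδ P hPX) hκnn hκle hBeq.le hcond2
    refine ⟨z, hz1, ?_⟩
    have h1 := hz2 (τ (σ 0))
    rw [← hWd] at h1
    refine le_trans ?_ h1
    have hvi : (0 : ℝ) ≤ v (τ (σ 0)) := by positivity
    have h2 : (W : ℝ) * (M * ((t0 * r : ℕ) : ℝ)) = ((M * (t0 * Q) : ℕ) : ℝ) := by
      rw [hr]
      push_cast
      ring
    rw [h2, ← hκ]
    have h3 : (t0 : ℝ) ≤ G * M * ((t0 * r : ℕ) : ℝ) := by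
      have h4 : t0 * 1 ≤ G * M * (t0 * r) := by
        have h5 : 1 ≤ G * M := Nat.mul_pos hG1 hM
        have h6 : t0 * 1 ≤ t0 * r := Nat.mul_le_mul_left _ hr1
        calc t0 * 1 ≤ 1 * (t0 * r) := by rw [one_mul]; exact h6
          _ ≤ G * M * (t0 * r) := Nat.mul_le_mul_right _ h5
      rw [mul_one] at h4
      exact_mod_cast h4
    have h7 : (t0 : ℝ) * (κ * v (τ (σ 0))) ≤ G * M * ((t0 * r : ℕ) : ℝ) * (κ * v (τ (σ 0))) :=
      mul_le_mul_of_nonneg_right h3 (mul_nonneg hκnn hvi)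
    linarith

end Pool.Agent.K3h50.MW
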