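import Pool.Agent.TH152.AC.Dual
import Pool.Agent.K3h50.MM.Comb

/-!
Weights of an arrangement which satisfy the rank condition: the combinatorial inequality.
-/

set_option autoImplicit false

open Pool.Agent.W602.Cov Module Pool.Agent.TH152.AC Pool.Agent.K3h50.MM

namespace Pool.Agent.K3h50.MW

variable {n q : ℕ} {ℓ : Fin q → Form n}

open Classical in
/-- the rank condition for the weights -/
def Wts (ℓ : Fin q → Form n) (β : Fin q → ℝ) : Prop :=
  (∀ i, 0 ≤ β i) ∧ ∀ F : Submodule ℂ (Form n), F ≠ ⊤ →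
    ∑ i ∈ Finset.univ.filter (fun i => ℓ i ∈ F), β i ≤ finrank ℂ F

theorem level_span (v : Fin q → ℕ) (hv : Submodule.span ℂ (ℓ '' {i | v i ≠ 0}) ≠ ⊤) {t : ℕ}
    (ht : 1 ≤ t) :
    Submodule.span ℂ (ℓ '' ((Finset.univ.filter fun i => t ≤ v i : Finset (Fin q)) :
      Set (Fin q))) ≠ ⊤ := by
  intro h
  apply hv
  rw [eq_top_iff, ← h]
  apply Submodule.span_mono
  apply Set.image_mono
  intro i hi
  rw [Finset.mem_coe, Finset.mem_filter] at hi
  change v i ≠ 0
  omega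

/-- the weights of a level set -/
theorem level_sum {β : Fin q → ℝ} (hβ : Wts ℓ β) (v : Fin q → ℕ)
    (hv : Submodule.span ℂ (ℓ '' {i | v i ≠ 0}) ≠ ⊤) (B : Bases ℓ)
    (hmax : ∀ B' : Bases ℓ, ∑ a, v (B'.1 a) ≤ ∑ a, v (B.1 a)) {t : ℕ} (ht : 1 ≤ t) :
    ∑ i ∈ Finset.univ.filter (fun i => t ≤ v i), β i ≤
      ((Finset.univ.filter fun a => t ≤ v (B.1 a)).card : ℝ) := by
  classical
  set F : Finset (Fin q) := Finset.univ.filter fun i => t ≤ v i with hF
  have hmem : ∀ i, i ∈ F ↔ t ≤ v i := by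
    intro i
    rw [hF, Finset.mem_filter]
    simp
  have hcnt : cnt B.1 F = (Finset.univ.filter fun a => t ≤ v (B.1 a)).card := by
    unfold cnt
    congr 1
    ext a
    simp only [Finset.mem_filter, Finset.mem_univ, true_and]
    exact hmem _
  rw [← hcnt]
  have h1 : rk ℓ F ≤ cnt B.1 F := fill v B hmax t
  have h2 := hβ.2 (Submodule.span ℂ (ℓ '' (F : Set (Fin q)))) (level_span v hv ht)
  have h3 : ∑ i ∈ F, β i ≤ ∑ i ∈ Finset.univ.filter
      (fun i => ℓ i ∈ Submodule.span ℂ (ℓ '' (F : Set (Fin q)))), β i := by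
    refine Finset.sum_le_sum_of_subset_of_nonneg (fun i hi => ?_) (fun i _ _ => hβ.1 i)
    rw [Finset.mem_filter]
    exact ⟨Finset.mem_univ _, Submodule.subset_span ⟨i, hi, rfl⟩⟩
  have h4 : (rk ℓ F : ℝ) ≤ (cnt B.1 F : ℝ) := by exact_mod_cast h1
  refine le_trans h3 (le_trans ?_ h4)
  unfold rk
  convert h2

/-- the sums over the forms and over the basis of maximal weight -/
theorem cake {β : Fin q → ℝ} (hβ : Wts ℓ β) (v : Fin q → ℕ)
    (hv : Submodule.span ℂ (ℓ '' {i | v i ≠ 0}) ≠ ⊤) (B : Bases ℓ)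
    (hmax : ∀ B' : Bases ℓ, ∑ a, v (B'.1 a) ≤ ∑ a, v (B.1 a)) {f : ℕ → ℝ} (hf : Monotone f)
    (h0 : f 0 = 0) :
    ∑ i, β i * f (v i) ≤ ∑ a, f (v (B.1 a)) := by
  classical
  obtain ⟨T, hT⟩ : ∃ T : ℕ, ∀ i, v i ≤ T :=
    ⟨Finset.univ.sup v, fun i => Finset.le_sup (Finset.mem_univ i)⟩
  have h1 : ∑ i, β i * f (v i) = ∑ t ∈ Finset.Icc 1 T, (f t - f (t - 1)) *
      ∑ i ∈ Finset.univ.filter (fun i => t ≤ v i), β i := by
    calc ∑ i, β i * f (v i) = ∑ i, ∑ t ∈ Finset.Icc 1 T,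
          (if t ≤ v i then (f t - f (t - 1)) * β i else 0) := by
          refine Finset.sum_congr rfl fun i _ => ?_
          rw [layer_sum h0 T (v i) (hT i), Finset.mul_sum]
          refine Finset.sum_congr rfl fun t _ => ?_
          split_ifs
          · ring
          · ring
      _ = ∑ t ∈ Finset.Icc 1 T, ∑ i, (if t ≤ v i then (f t - f (t - 1)) * β i else 0) :=
          Finset.sum_comm
      _ = _ := by
          refine Finset.sum_congr rfl fun t _ => ?_
          rw [← Finset.sum_filter, Finset.mul_sum]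
  have h2 : ∑ a, f (v (B.1 a)) = ∑ t ∈ Finset.Icc 1 T, (f t - f (t - 1)) *
      (Finset.univ.filter fun a => t ≤ v (B.1 a)).card := by
    calc ∑ a, f (v (B.1 a)) = ∑ a, ∑ t ∈ Finset.Icc 1 T,
          (if t ≤ v (B.1 a) then f t - f (t - 1) else 0) :=
          Finset.sum_congr rfl fun i _ => layer_sum h0 T _ (hT _)
      _ = ∑ t ∈ Finset.Icc 1 T, ∑ a, (if t ≤ v (B.1 a) then f t - f (t - 1) else 0) :=
          Finset.sum_comm
      _ = _ := by
          refine Finset.sum_congr rfl fun t _ => ?_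
          rw [← Finset.sum_filter, Finset.sum_const, nsmul_eq_mul, mul_comm]
  rw [h1, h2]
  refine Finset.sum_le_sum fun t ht => ?_
  have ht1 := (Finset.mem_Icc.1 ht).1
  exact mul_le_mul_of_nonneg_left (level_sum hβ v hv B hmax ht1)
    (sub_nonneg.2 (hf (Nat.sub_le t 1)))

/-- **The inequality for the weights.** -/
theorem weights_ineq {β y : Fin q → ℝ} (hβ : Wts ℓ β) (hy : ∀ i, 0 ≤ y i) (v : Fin q → ℕ)
    (hv : Submodule.span ℂ (ℓ '' {i | v i ≠ 0}) ≠ ⊤) (B : Bases ℓ)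
    (hmax : ∀ B' : Bases ℓ, ∑ a, v (B'.1 a) ≤ ∑ a, v (B.1 a))
    {κ c : ℝ} (hκ1 : κ ≤ 1) (hc : 0 ≤ c)
    (h : ∀ i, v i ≠ 0 → y i * v i + κ * v i + c ≤ v i) :
    ∑ i, β i * y i * v i + κ * ∑ a, (v (B.1 a) : ℝ) +
      c * (Finset.univ.filter fun a => v (B.1 a) ≠ 0).card ≤ ∑ a, (v (B.1 a) : ℝ) := by
  classical
  obtain ⟨f, hf⟩ : ∃ f : ℕ → ℝ, ∀ t : ℕ, f t = max 0 ((1 - κ) * t - c) := ⟨_, fun _ => rfl⟩
  have hmono : Monotone f := by
    intro a b hab
    rw [hf, hf]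
    apply max_le_max le_rfl
    have : (a : ℝ) ≤ b := by exact_mod_cast hab
    have := mul_le_mul_of_nonneg_left this (sub_nonneg.2 hκ1)
    linarith
  have hf0 : f 0 = 0 := by
    rw [hf]
    simp [hc]
  have hk := cake hβ v hv B hmax hmono hf0
  have h1 : ∑ i, β i * y i * v i ≤ ∑ i, β i * f (v i) := by
    refine Finset.sum_le_sum fun i _ => ?_
    rw [mul_assoc]
    refine mul_le_mul_of_nonneg_left ?_ (hβ.1 i)
    by_cases hi : v i = 0
    · rw [hi, hf0]
      simp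
    · have h2 := h i hi
      rw [hf]
      refine le_trans ?_ (le_max_right _ _)
      nlinarith
  have h2 : ∑ i, β i * y i * v i ≤ ∑ a, f (v (B.1 a)) := h1.trans hk
  have h3 : ∑ a, f (v (B.1 a)) + κ * ∑ a, (v (B.1 a) : ℝ) +
      c * (Finset.univ.filter fun a => v (B.1 a) ≠ 0).card = ∑ a, (v (B.1 a) : ℝ) := by
    rw [Finset.card_filter]
    push_cast
    rw [Finset.mul_sum, Finset.mul_sum, ← Finset.sum_add_distrib, ← Finset.sum_add_distrib]
    refine Finset.sum_congr rfl fun a _ => ?_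
    by_cases ha : v (B.1 a) = 0
    · simp [ha, hf0]
    · have h4 := h _ ha
      rw [hf, max_eq_right, if_pos ha]
      · ring
      · have h5 : 0 ≤ y (B.1 a) * v (B.1 a) := by
          have := hy (B.1 a)
          positivity
        linarith
  linarith

/-- the rank of the forms which vanish -/
theorem support_rank (v : Fin q → ℕ) (B : Bases ℓ)
    (hmax : ∀ B' : Bases ℓ, ∑ a, v (B'.1 a) ≤ ∑ a, v (B.1 a)) :
    finrank ℂ (Submodule.span ℂ (ℓ '' {i | v i ≠ 0})) ≤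
      (Finset.univ.filter fun a => v (B.1 a) ≠ 0).card := by
  classical
  have h1 := fill v B hmax 1
  have e : ((Finset.univ.filter fun i => 1 ≤ v i : Finset (Fin q)) : Set (Fin q)) =
      {i | v i ≠ 0} := by
    ext i
    simp [Nat.one_le_iff_ne_zero]
  unfold rk at h1
  rw [e] at h1
  refine h1.trans (le_of_eq ?_)
  unfold cnt
  congr 1
  ext a
  simp [Nat.one_le_iff_ne_zero]

/-- a basis of maximal weight contains an element of maximal weight -/
theorem max_le_sum (hℓ : ∀ i, ℓ i ≠ 0) (v : Fin q → ℕ) (B : Bases ℓ)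
    (hmax : ∀ B' : Bases ℓ, ∑ a, v (B'.1 a) ≤ ∑ a, v (B.1 a)) (i : Fin q) :
    (v i : ℝ) ≤ ∑ a, (v (B.1 a) : ℝ) := by
  classical
  have h1 := fill v B hmax (v i)
  have h2 : 1 ≤ rk ℓ (Finset.univ.filter fun j => v i ≤ v j) := by
    unfold rk
    have h3 : Submodule.span ℂ {ℓ i} ≤ Submodule.span ℂ (ℓ '' ((Finset.univ.filter fun j =>
        v i ≤ v j : Finset (Fin q)) : Set (Fin q))) :=
      Submodule.span_mono (Set.singleton_subset_iff.2 ⟨i, by simp, rfl⟩)
    have h4 := Submodule.finrank_mono h3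
    rw [finrank_span_singleton (hℓ i)] at h4
    exact h4
  have h3 : 0 < cnt B.1 (Finset.univ.filter fun j => v i ≤ v j) := by omega
  unfold cnt at h3
  obtain ⟨a', ha'⟩ := Finset.card_pos.1 h3
  rw [Finset.mem_filter, Finset.mem_filter] at ha'
  have h5 : (v (B.1 a') : ℝ) ≤ ∑ a, (v (B.1 a) : ℝ) :=
    Finset.single_le_sum (f := fun a => (v (B.1 a) : ℝ)) (fun a _ => by positivity)
      (Finset.mem_univ a')
  have h6 : (v i : ℝ) ≤ v (B.1 a') := by exact_mod_cast ha'.2.2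
  linarith

end Pool.Agent.K3h50.MW
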