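import Pool.Agent.K3h50.MW.Asm

/-!
Nonvanishing and bigness for pairs with many powerful members of a linear system: sections.
-/

set_option autoImplicit false

open FF Module Pool.Agent.W603.LV Pool.Agent.W602.GT Pool.Agent.W602.Cov Pool.Agent.W602.Cov.G

namespace Pool.Agent.K3h50.MW

variable {d k n q G : ℕ} {K : Type} [Field K] [Algebra ℂ K]

/-- sections of `N (K + Δ)` -/
def Sec {K : Type} [Field K] [Algebra ℂ K] (d : ℕ) (X : Set (Place ℂ K))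
    (δ : Place ℂ K → ℝ) (N : ℕ) (ω : (Fin d → Derivation ℂ K K) → K) : Prop :=
  IsPluri N ω ∧ ∀ P ∈ X, Divisorial d P → ∀ D : Fin d → Derivation ℂ K K,
    (∀ i, DerReg P (D i)) → ω D = 0 ∨ -(N * δ P) ≤ (P.ord (ω D) : ℝ)

theorem of_ge {P : Place ℂ K} {z : ℤ} {f : K} {r : ℝ} (h : Ge P z f) (hr : r ≤ z) :
    f = 0 ∨ r ≤ (P.ord f : ℝ) := by
  rcases h with h | h
  · exact Or.inl h
  · right
    refine hr.trans ?_
    exact_mod_cast h

/-- **Nonvanishing and bigness.** -/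
theorem final (hdk : d + k = n) (hG1 : 1 ≤ G) {β y : Fin q → ℚ}
    {M : ℕ} {m : Fin q → ℕ} (hM : 1 ≤ M) (hm : ∀ i, β i * y i = (m i : ℚ) / M)
    (hy0 : ∀ i, 0 ≤ y i) (hy1 : ∀ i, y i ≤ 1) (hb : ∑ i, β i * y i = n + 1)
    {c s : ℝ} (hc : 0 ≤ c) (hs : bd d n c ≤ s)
    (htr : Algebra.trdeg ℂ K = d) {V : Submodule ℂ K} (hV : Module.finrank ℂ V = n + 1)
    (halg : Algebra.IsAlgebraic
      (IntermediateField.adjoin ℂ {y : K | ∃ f ∈ V, ∃ g ∈ V, y = f / g}) K)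
    {φ : Fin q → K} (hφ0 : ∀ i, φ i ≠ 0) (hφV : ∀ i, φ i ∈ V) (hβ : WtsV V φ β)
    {A : Fin G → Finset (Fin q)} (hA : SprV V φ A c)
    {X : Set (Place ℂ K)} {δ : Place ℂ K → ℝ} (hδ : ∀ P ∈ X, 0 ≤ δ P)
    (h : Pow d V φ y X δ s) :
    (∃ ω, Sec d X δ (M * (G * ((k + 1) * (k + 2))).factorial) ω ∧ ∃ D, ω D ≠ 0) ∧
    ∀ t : ℕ, (∀ i, 1 ≤ t * ((1 - bd d n c / s) * (1 - (y i : ℝ)))) →
      ∃ ω : Fin (d + 1) → (Fin d → Derivation ℂ K K) → K,
        (∀ j, Sec d X δ (M * (t * (G * ((k + 1) * (k + 2))).factorial)) (ω j)) ∧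
        ∃ D, ω 0 D ≠ 0 ∧ AlgebraicIndependent ℂ (fun i : Fin d => ω i.succ D / ω 0 D) := by
  classical
  have hy1' : ∀ i, (y i : ℝ) ≤ 1 := fun i => by exact_mod_cast hy1 i
  have hy0' : ∀ i, (0 : ℝ) ≤ y i := fun i => by exact_mod_cast hy0 i
  refine ⟨?_, fun t ht => ?_⟩
  · obtain ⟨ω, D, u, hD, -, hpl, hω⟩ := core hdk hG1 hM hm hy0 hb (κ0 := 0) hc hs le_rfl
      (fun i => sub_nonneg.2 (hy1' i)) 1 htr hV halg hφ0 hφV hβ hA hδ h
    rw [one_mul] at hpl hω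
    refine ⟨ω, ⟨hpl, fun P hPX hPd E hE => ?_⟩, D, hD⟩
    obtain ⟨l, -, hl⟩ := hω P hPX hPd
    obtain ⟨z, hz1, hz2⟩ := hl E hE
    refine of_ge hz1 (le_trans (le_of_eq ?_) hz2)
    ring
  · have hq : 0 < q := by
      rcases Nat.eq_zero_or_pos q with h0 | h0
      · subst h0
        rw [Finset.univ_eq_empty, Finset.sum_empty] at hb
        exfalso
        have : (0 : ℚ) < n + 1 := by positivity
        linarith
      · exact h0
    obtain ⟨θ, hθ⟩ : ∃ θ : ℝ, θ = 1 - bd d n c / s := ⟨_, rfl⟩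
    rw [← hθ] at ht
    have h1 := ht ⟨0, hq⟩
    have hθpos : 0 < t * θ := by
      by_contra hcon
      push Not at hcon
      have h2 : (t : ℝ) * (θ * (1 - (y ⟨0, hq⟩ : ℝ))) ≤ 0 := by
        rw [← mul_assoc]
        exact mul_nonpos_of_nonpos_of_nonneg hcon (sub_nonneg.2 (hy1' _))
      linarith
    have hκ1 : ∀ i, (t * θ)⁻¹ ≤ 1 - (y i : ℝ) := by
      intro i
      rw [inv_le_iff_one_le_mul₀ hθpos]
      have := ht i
      linarith
    obtain ⟨ω, D, u, hD, hu, hpl, hω⟩ := core hdk hG1 hM hm hy0 hb (κ0 := (t * θ)⁻¹) hc hs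
      (inv_nonneg.2 hθpos.le) hκ1 t htr hV halg hφ0 hφV hβ hA hδ h
    rw [← hθ] at hω
    obtain ⟨N, hN⟩ : ∃ N, N = M * (t * (G * ((k + 1) * (k + 2))).factorial) := ⟨_, rfl⟩
    rw [← hN] at hpl hω ⊢
    have key : ∀ P ∈ X, Divisorial d P → ∃ l : ℕ, (∀ j, Ge P (-(l : ℤ)) (u j)) ∧
        ∀ E : Fin d → Derivation ℂ K K, (∀ i, DerReg P (E i)) → ∃ z : ℤ, Ge P z (ω E) ∧
          (l : ℝ) - N * δ P ≤ z := by
      intro P hPX hPd
      obtain ⟨l, hl1, hl2⟩ := hω P hPX hPd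
      refine ⟨l, hl1, fun E hE => ?_⟩
      obtain ⟨z, hz1, hz2⟩ := hl2 E hE
      refine ⟨z, hz1, le_trans (le_of_eq ?_) hz2⟩
      have e1 : (t : ℝ) * (θ * (t * θ)⁻¹ * l) = (t * θ) * (t * θ)⁻¹ * l := by ring
      rw [e1, mul_inv_cancel₀ hθpos.ne', one_mul]
    refine ⟨Fin.cons ω fun j E => u j * ω E, fun j => ?_, D, ?_, ?_⟩
    · refine Fin.cases ?_ (fun j => ?_) j
      · rw [Fin.cons_zero]
        refine ⟨hpl, fun P hPX hPd E hE => ?_⟩
        obtain ⟨l, -, hl⟩ := key P hPX hPd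
        obtain ⟨z, hz1, hz2⟩ := hl E hE
        refine of_ge hz1 (le_trans ?_ hz2)
        have : (0 : ℝ) ≤ l := by positivity
        linarith
      · rw [Fin.cons_succ]
        refine ⟨fun A' E => ?_, fun P hPX hPd E hE => ?_⟩
        · change u j * ω _ = _ * (u j * ω E)
          rw [hpl A' E]
          ring
        · obtain ⟨l, hl1, hl⟩ := key P hPX hPd
          obtain ⟨z, hz1, hz2⟩ := hl E hE
          refine of_ge ((hl1 j).mul hz1) ?_
          push_cast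
          linarith
    · rw [Fin.cons_zero]
      exact hD
    · have e1 : (fun i : Fin d => (Fin.cons ω (fun j E => u j * ω E) :
          Fin (d + 1) → (Fin d → Derivation ℂ K K) → K) i.succ D /
          (Fin.cons ω (fun j E => u j * ω E) :
          Fin (d + 1) → (Fin d → Derivation ℂ K K) → K) 0 D) = u := by
        funext i
        rw [Fin.cons_succ, Fin.cons_zero, mul_div_assoc, div_self hD, mul_one]
      rw [e1]
      exact hu

end Pool.Agent.K3h50.MW
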